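import Pool.Agent.helper33.SP.SpecC1S

/-!
# Project sp, piece C1, spectral side, UJ11: no four arms, no transfer
-/

namespace TP

open DP MeasureTheory

theorem UJ11 (h1 : UI1_stmt) : UJ11_stmt := by
  intro c c' R x s t m n hm hmn hf hc hR hs ht
  have hne : ∀ {c c' : V → Bool}, ¬ twoCl c true x m n → (∀ v, m ≤ sd x v → c v = c' v) →
      ¬ twoCl c' true x m n := by
    intro c c' hf hc h
    apply hf
    have hcg : ∀ v ∈ ann x m n, c' v = c v := fun v hv => (hc v hv.1).symm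
    obtain ⟨u, hu, v, hv, ⟨u', hu', h1⟩, ⟨v', hv', h2⟩, h3⟩ := h
    exact ⟨u, hu, v, hv, ⟨u', hu', (Conn.congr hcg).1 h1⟩, ⟨v', hv', (Conn.congr hcg).1 h2⟩,
      fun h4 => h3 ((Conn.congr hcg).2 h4)⟩
  obtain ⟨r, rfl⟩ : ∃ r, m = r + 1 := ⟨m - 1, by omega⟩
  constructor
  · intro hC
    by_contra hC'
    exact hf (h1 c c' true R x r n s t (by omega) hR hs ht (fun w hw => hc w (by omega)) hC hC')
  · intro hC
    by_contra hC'
    exact hne hf hc (h1 c' c true R x r n s t (by omega) hR hs ht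
      (fun w hw => (hc w (by omega)).symm) hC hC')

end TP
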