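import Pool.Agent.helper95.SP.SpecCH

/-!
# Project sp, part CH, BTH: both separations without noise
-/

namespace TP

open DP MeasureTheory

namespace K

theorem BTH (hB : TP.BOTH_stmt) (hzero : Bzero_stmt) (hLQ : LQ_stmt) : BTH_stmt := by
  obtain ⟨C, hC, i₁, h⟩ := hB
  refine ⟨C, hC, i₁ + 1, fun x a b hx ha hab => ?_⟩
  have h1 := h 4 (fun _ => 0) x a b (Or.inr rfl) (fun _ => ⟨le_refl _, zero_le_one⟩) hx
    (by omega) hab
  have h2 : Loc (F4 x a b) (ann x (2 ^ a) (2 ^ b)) := hLQ.1 x a b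
  have h3 : Loc (B4 x (a - 1) (b + 1)) (ann x (2 ^ (a - 1)) (2 ^ (b + 1))) :=
    hLQ.2.2.1 x (a - 1) (b + 1) (by omega)
  have h4 : Q (fun _ => 0) (F4 x a b) (F4 x a b) = Pr (F4 x a b) := by
    rw [hzero (fun _ => 0) _ _ _ h2 h2 (fun _ _ => rfl), Set.inter_self]
  have h5 : Q (fun _ => 0) (B4 x (a - 1) (b + 1)) (B4 x (a - 1) (b + 1)) =
      Pr (B4 x (a - 1) (b + 1)) := by
    rw [hzero (fun _ => 0) _ _ _ h3 h3 (fun _ _ => rfl), Set.inter_self]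
  rw [← h4, ← h5]
  exact h1

end K

end TP
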